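import Pool.Agent.Helper27.PG.Defs
import Pool.Agent.Helper41.JT.Slice
import Pool.Agent.Helper41.JT.Meas

/-!
# Geodesics are unique for atomless laws (MP_13b103_pr, piece (U))
-/

set_option autoImplicit false

namespace Pool.Agent.Helper20.JT

open MeasureTheory ProbabilityTheory Pool.Agent.Helper79.GR Pool.Agent.Helper41.JT
  Pool.Agent.Helper27.PG

variable {d : ℕ}

/-! ### Deterministic part -/

theorem cost_pos_of_ne {c : Edge d → ℝ} (hp : ∀ e, 0 < c e) (x : V d) {w : List (St d)}
    (hw : w ≠ []) : 0 < cost c x w := by
  cases w with
  | nil => exact absurd rfl hw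
  | cons s w => exact add_pos_of_pos_of_nonneg (hp _) (cost_nonneg hp _ _)

/-- a geodesic does not come back to its starting point -/
theorem geo_loop {c : Edge d → ℝ} (hp : ∀ e, 0 < c e) {x : V d} {u z : List (St d)}
    (hg : Geo c x (u ++ z)) (hu : pos x u = x) : u = [] := by
  by_contra hne
  have h1 := hg z (by rw [pos_append, hu])
  rw [cost_append, hu] at h1
  have := cost_pos_of_ne hp x hne
  linarith

theorem geo_tail {c : Edge d → ℝ} {x : V d} {s : St d} {t : List (St d)}
    (hg : Geo c x (s :: t)) : Geo c (x + sv s) t := by
  intro w' hw'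
  have h1 : cost c x (s :: t) ≤ cost c x (s :: w') := hg (s :: w') hw'
  simp only [cost] at h1
  linarith

theorem sv_inj {s s' : St d} (h : sv s = sv s') : s = s' := by
  obtain ⟨i, b⟩ := s
  obtain ⟨i', b'⟩ := s'
  have h1 := congrFun h i
  by_cases hi : i = i'
  · subst hi
    simp only [sv, Pi.single_eq_same] at h1
    cases b <;> cases b' <;> simp_all
  · simp only [sv, Pi.single_eq_same, Pi.single_eq_of_ne hi] at h1
    cases b <;> simp at h1

theorem ed_inj_step {x : V d} {s s' : St d} (h : ed x s = ed x s') : s = s' := by
  rcases ed_eq h with ⟨-, h1⟩ | ⟨h1, h2⟩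
  · exact sv_inj (add_left_cancel h1)
  · have h3 : sv s' = 0 := by
      have : x + 0 = x + sv s' := by rw [add_zero]; exact h1
      exact (add_left_cancel this).symm
    have h4 := congrFun h3 s'.1
    simp only [sv, Pi.single_eq_same, Pi.zero_apply] at h4
    split_ifs at h4
    omega

open Classical in
/-- a geodesic is determined by its starting point and its edges -/
theorem uniq_of_count {c : Edge d → ℝ} (hp : ∀ e, 0 < c e) :
    ∀ (w w' : List (St d)) (x : V d), Geo c x w → Geo c x w' →
      (∀ e, (eds x w).count e = (eds x w').count e) → w = w'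
  | [], [], _, _, _, _ => rfl
  | [], s :: t, x, _, _, h => by
      have := h (ed x s)
      simp [eds] at this
  | s :: t, [], x, _, _, h => by
      have := h (ed x s)
      simp [eds] at this
  | s :: t, s' :: t', x, hg, hg', h => by
      have hs : s = s' := by
        have h1 : ed x s ∈ eds x (s' :: t') := by
          rw [← List.count_pos_iff, ← h]
          simp [eds]
        simp only [eds, List.mem_cons] at h1
        rcases h1 with h1 | h1
        · exact ed_inj_step h1
        · exfalso
          obtain ⟨u, v, r, h2, h3⟩ := mem_eds_split h1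
          rcases ed_eq h3 with ⟨h4, -⟩ | ⟨-, h4⟩
          · have h5 : Geo c x ((s' :: u) ++ r :: v) := by
              rw [List.cons_append, ← h2]; exact hg'
            exact absurd (geo_loop hp h5 h4) (by simp)
          · have h5 : Geo c x ((s' :: (u ++ [r])) ++ v) := by
              rw [List.cons_append, List.append_assoc, List.singleton_append, ← h2]; exact hg'
            have h6 : pos x (s' :: (u ++ [r])) = x := by
              change pos (x + sv s') (u ++ [r]) = x
              rw [pos_append]
              exact h4
            exact absurd (geo_loop hp h5 h6) (by simp)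
      subst hs
      congr 1
      refine uniq_of_count hp t t' (x + sv s) (geo_tail hg) (geo_tail hg') fun e => ?_
      have h6 := h e
      simp only [eds, List.count_cons] at h6
      omega

/-! ### Null sets -/

open Classical in
theorem sum_update (L : List (Edge d)) (c : Edge d → ℝ) (e : Edge d) (t : ℝ) :
    (L.map (Function.update c e t)).sum =
      (L.map (Function.update c e 0)).sum + L.count e * t := by
  induction L with
  | nil => simp
  | cons f L ih =>
    simp only [List.map_cons, List.sum_cons, List.count_cons, ih]
    by_cases hf : f = e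
    · subst hf
      simp only [Function.update_self, beq_self_eq_true, if_true]
      push_cast
      ring
    · have hb : (f == e) = false := beq_eq_false_iff_ne.2 hf
      rw [Function.update_of_ne hf, Function.update_of_ne hf, hb]
      simp
      ring

variable {Ω : Type*} [MeasurableSpace Ω] {P : Measure Ω} {X : Edge d → Ω → ℝ} {ν : Measure ℝ}

open Classical in
theorem null_pair (h : EnvA P X ν) (x : V d) (w w' : List (St d)) (e : Edge d)
    (hne : (eds x w).count e ≠ (eds x w').count e) :
    P {ω | cost (cf X ω) x w = cost (cf X ω) x w'} = 0 := by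
  have hP := h.prob
  have hν : IsProbabilityMeasure ν := by
    rw [← h.law e]
    exact Measure.isProbabilityMeasure_map (h.meas e).aemeasurable
  have h1 := slice P X h.meas h.indep ν e (h.law e) Set.univ
    {c | cost c x w = cost c x w'} Set.univ
    (measurableSet_eq_fun (measurable_cost_cfg x w) (measurable_cost_cfg x w'))
    MeasurableSet.univ 0 (fun c => ?_) (fun _ _ _ _ => trivial)
  · rw [zero_mul, measure_univ, one_mul] at h1
    exact le_antisymm h1 bot_le
  · have hs : {t : ℝ | Function.update c e t ∈ {c : Edge d → ℝ | cost c x w = cost c x w'}}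
        |>.Subsingleton := by
      intro t ht t' ht'
      simp only [Set.mem_ofPred_eq, cost_eq_sum] at ht ht'
      rw [sum_update (eds x w) c e t, sum_update (eds x w') c e t] at ht
      rw [sum_update (eds x w) c e t', sum_update (eds x w') c e t'] at ht'
      have h2 : (((eds x w).count e : ℝ) - (eds x w').count e) * (t - t') = 0 := by
        linear_combination ht - ht'
      have h3 : ((eds x w).count e : ℝ) - (eds x w').count e ≠ 0 := by
        intro h4
        apply hne
        have : ((eds x w).count e : ℝ) = (eds x w').count e := sub_eq_zero.1 h4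
        exact_mod_cast this
      exact sub_eq_zero.1 ((mul_eq_zero.1 h2).resolve_left h3)
    rcases hs.eq_empty_or_singleton with h2 | ⟨t, h2⟩
    · rw [h2, measure_empty]
    · rw [h2, h.atom]

/-- geodesics are unique -/
theorem ae_uq (h : EnvA P X ν) (_hd : 1 ≤ d) (hok : ∀ᵐ ω ∂P, Ok (cf X ω)) :
    ∀ᵐ ω ∂P, Uq (cf X ω) := by
  classical
  have h1 : ∀ᵐ ω ∂P, ∀ (x : V d) (w w' : List (St d)),
      (∀ e, (eds x w).count e = (eds x w').count e) ∨
        cost (cf X ω) x w ≠ cost (cf X ω) x w' := by
    rw [ae_all_iff]
    intro x
    rw [ae_all_iff]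
    intro w
    rw [ae_all_iff]
    intro w'
    by_cases hc : ∀ e, (eds x w).count e = (eds x w').count e
    · exact Filter.Eventually.of_forall fun ω => Or.inl hc
    · obtain ⟨e, he⟩ := not_forall.1 hc
      have h2 := null_pair h x w w' e he
      have h3 : ∀ᵐ ω ∂P, ¬ cost (cf X ω) x w = cost (cf X ω) x w' := by
        rw [ae_iff]
        simpa using h2
      filter_upwards [h3] with ω h4 using Or.inr h4
  filter_upwards [h1, hok] with ω h1 h2
  intro x w w' hg hg' hpos
  rcases h1 x w w' with h3 | h3
  · exact uniq_of_count h2.ps w w' x hg hg' h3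
  · exact absurd (le_antisymm (hg w' hpos.symm) (hg' w hpos)) h3

end Pool.Agent.Helper20.JT
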